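import Pool.Agent.helper74.VN.SpecC
import Pool.Agent.helper43.VQ.VAM

set_option autoImplicit false

open scoped MatrixGroups ContDiff Topology UpperHalfPlane ComplexConjugate ENNReal
open UpperHalfPlane MeasureTheory Filter Set

namespace Pool.Agent.VN

open Pool.Agent.RS Pool.Agent.VQ

noncomputable section

theorem NAM_num (κ : ℝ) (hκ : 0 < κ) : ∃ R0 : ℝ, 1 ≤ R0 ∧ ∀ R : ℝ, R0 ≤ R → 2 * R ^ (-(1 / 4) : ℝ) ≤ κ := by
  have h1 := (tendsto_rpow_neg_atTop (by norm_num : (0 : ℝ) < 1 / 4)).eventually_le_const (show (0 : ℝ) < κ / 2 by linarith)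
  obtain ⟨R0, h⟩ := eventually_atTop.mp h1
  refine ⟨max 1 R0, le_max_left _ _, fun R hR => ?_⟩
  have := h R (le_trans (le_max_right _ _) hR)
  linarith

theorem NAM_QS (hNQS : NQS_stmt) (ch : ℝ → ℝ) (ζ κ : ℝ) (hch : CH ch) (hκ : 0 < κ) (h0 : 0 < ζ) (h1 : ζ ≤ 1 / 8) : ∃ R0 : ℝ, 1 ≤ R0 ∧ ∀ (R : ℝ) (U : ℍ → ℝ), R0 ≤ R → Dm ⊥ univ → PV ⊥ κ U →
    (∀ x, Continuous (Gp U ch ζ R x)) ∧ ∀ x z, Gp U ch ζ R x z ≠ 0 → dist (x.1 • I : ℍ) z ≤ 2 * R ^ (-(1 / 2) + ζ) := by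
  obtain ⟨R0, hR0, h⟩ := hNQS ch ζ κ hch hκ h0 h1
  refine ⟨R0, hR0, fun R U hR hD hU => ?_⟩
  have h2 := h R ⊥ univ U hR hD hU
  have qc := h2.1
  have qb := h2.2.1
  constructor
  · intro x
    exact VAM_c1 (Gp U ch ζ R) qc x
  · intro x z
    exact (qb x z).2

theorem NAM_proof (hNAD : NAD_stmt) (hNUS : NUS_stmt) (hNUM : NUM_stmt) (hNUL : NUL_stmt) (hND0 : ND0_stmt) (hNNP : NNP_stmt) (hNFM : NFM_stmt)
    (hNUB : NUB_stmt) (hNOX : NOX_stmt) (hNQS : NQS_stmt) (hNFR : NFR_stmt) (hVOX : VOX_stmt) : NAM_stmt := by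
  intro κ hκ
  obtain ⟨c1, hc1, hAD⟩ := hNAD κ hκ
  obtain ⟨c2, hc2, hUS⟩ := hNUS κ hκ
  obtain ⟨c3, hc3, hUM⟩ := hNUM κ hκ
  obtain ⟨c4, hc4, hUL⟩ := hNUL κ hκ
  obtain ⟨c5, hc5, hD0⟩ := hND0 κ hκ
  obtain ⟨c6, hc6, hNP⟩ := hNNP κ hκ
  obtain ⟨c7, hc7, hFM⟩ := hNFM κ hκ
  obtain ⟨c8, -, hUB⟩ := hNUB κ hκ
  obtain ⟨c9, -, hFR⟩ := hNFR κ hκ
  obtain ⟨-, oxD, -, oxH, -, -⟩ := hVOX
  obtain ⟨oxO, oxPsi⟩ := hNOX
  obtain ⟨K, hK⟩ : ∃ K : ℝ, K = 8 * (c1 + c2 + c3 + c4 + c5 + c6 + c7) := ⟨_, rfl⟩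
  have hK8 : 8 ≤ K := by rw [hK]; linarith
  have hK0 : 0 < K := by linarith
  have hKK : K ≤ K ^ 2 := by nlinarith
  refine ⟨100 * K ^ 2, by nlinarith, ?_⟩
  intro ch B A hch hA
  obtain ⟨hz, hzz, hz1, hz2, hz264, hme, hKz1, hm⟩ := VAM_par K (100 * K ^ 2) A hK8 (by nlinarith) hA
  have hz10 : 0 < A.z1 := by linarith
  have adm : ∀ c', c' ≤ K → Adm c' A := fun c' hc' => VAM_adm (100 * K ^ 2) c' A (by nlinarith) (by nlinarith) hA
  have he0 : 0 ≤ (A.m : ℝ) * A.e3 := mul_nonneg (by linarith) hA.e3.le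
  have hK1 : 0 < 1 / K := by positivity
  have hK18 : 1 / K ≤ 1 / 8 := by
    rw [div_le_div_iff₀ hK0 (by norm_num)]
    linarith
  have cK : ∀ c', 8 * c' ≤ K → c' * (1 / K) ≤ 1 / 8 := by
    intro c' hc'
    rw [mul_one_div, div_le_div_iff₀ hK0 (by norm_num)]
    linarith
  have rg : ∀ c', 1 ≤ c' → 8 * c' ≤ K → Rg c' ((A.m : ℝ) * A.e3) A.z (1 / K) := by
    intro c' hc1' hc'
    refine ⟨he0, hz, hzz.trans hz1, ?_, ?_⟩
    · refine le_trans (mul_le_mul_of_nonneg_right (by linarith : c' ≤ K) he0) hme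
    · have := cK c' hc'
      linarith
  obtain ⟨R1, hR1, hAD⟩ := hAD ch B A _ (1 / K) hch (adm c1 (by linarith)) (rg c1 hc1 (by linarith)) hz1
  obtain ⟨R2, hR2, hUS⟩ := hUS ch B A hch (adm c2 (by linarith))
  obtain ⟨R3, hR3, hUM⟩ := hUM ch B A hch (adm c3 (by linarith))
  obtain ⟨R4, hR4, hUL⟩ := hUL ch 0 A.z A.z1 0 B hch ⟨le_rfl, hz, hzz, by rw [mul_zero]; exact hz10.le, by nlinarith⟩
  obtain ⟨R5, hR5, hD0⟩ := hD0 ch 0 _ A.z (1 / K) (1 / K) 0 hch (rg c5 hc5 (by linarith)) le_rfl (by have := cK c5 (by linarith); linarith)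
  obtain ⟨R6, hR6, hNP⟩ := hNP ch _ A.z (1 / K) B hch (rg c6 hc6 (by linarith))
  obtain ⟨R7, hR7, hFM⟩ := hFM ch 0 _ A.z (1 / K) B hch (rg c7 hc7 (by linarith))
  obtain ⟨R8, hR8, hQS⟩ := NAM_QS hNQS ch A.z κ hch hκ hz (by linarith)
  obtain ⟨R9, hR9, hnum⟩ := VAM_num A.m
  obtain ⟨R10, hR10, hnum2⟩ := NAM_num κ hκ
  refine ⟨1 / K, R1 + R2 + R3 + R4 + R5 + R6 + R7 + R8 + R9 + R10, hz1, hK1, hK18, by linarith, ?_⟩
  intro R Γ D p q hR hD hp hq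
  obtain ⟨hRb, hn1, hn2⟩ := hnum R (by linarith)
  have hR0 : (0 : ℝ) < R := by linarith
  have hlog : 0 ≤ Real.log R := Real.log_nonneg (by linarith)
  have hDb : OKN ⊥ κ B D := oxO Γ κ B D hD
  have hPU : PV ⊥ κ D.U := (hUB ⊥ B D.U hDb.pot).1
  have hRκ := hnum2 R (by linarith)
  have hq14 := VAM_q R hRb
  have hq140 : 0 < R ^ (-(1 / 4) : ℝ) := Real.rpow_pos_of_pos hR0 _
  have hwin : ∀ c x, c ≤ 2 → x ∈ Wi c R → |x| ≤ κ := by
    intro c x hc hx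
    have h1 : |x| ≤ c * R ^ (-(1 / 4) : ℝ) := abs_le.mpr hx
    nlinarith
  have hpow : ∀ η : ℝ, η ≤ 1 / 4 → R ^ (-(1 / 2) + η) ≤ 1 / 4 := by
    intro η hη
    have := VAM_pw R (-(1 / 2) + η) (-(1 / 4)) hRb (by linarith)
    linarith
  obtain ⟨cG, sG⟩ := hQS R D.U (by linarith) oxD hPU
  have nG : ∀ x ∈ GW 2 R, ∫ z : ℍ, ‖Gp D.U ch A.z R x z‖ ≤ 8 * R ^ (1 / 2 : ℝ) := by
    intro x hx
    exact (hNP R 0 ⊥ D x (by linarith) hDb (hwin 2 _ le_rfl hx.2) le_rfl (mul_nonneg he0 hlog)).2.2.1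
  have htm : ∀ k : ℕ, k ≤ A.m → 0 ≤ (k : ℝ) * A.sg R ∧ (k : ℝ) * A.sg R ≤ ((A.m : ℝ) * A.e3) * Real.log R := by
    intro k hk
    have hk' : (k : ℝ) ≤ A.m := by exact_mod_cast hk
    have h1 : 0 ≤ A.sg R := mul_nonneg hA.e3.le hlog
    refine ⟨mul_nonneg (Nat.cast_nonneg k) h1, ?_⟩
    have : (k : ℝ) * A.sg R ≤ A.m * A.sg R := mul_le_mul_of_nonneg_right hk' h1
    have e1 : (A.m : ℝ) * A.sg R = ((A.m : ℝ) * A.e3) * Real.log R := by unfold Prm.sg; ring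
    rw [← e1]
    exact this
  -- the second bound
  have hpsib : ∀ x : SL(2, ℝ) × ℝ, |x.2| ≤ κ → ∀ t : ℝ, 0 ≤ t → t ≤ ((A.m : ℝ) * A.e3) * Real.log R → ∀ z, ‖psi D ch A.z (1 / K) R t x z‖ ≤ R ^ (3 / 2 : ℝ) * ‖D.a x.2 t x.1‖ := by
    intro x hx t ht0 ht
    exact (hNP R t ⊥ D x (by linarith) hDb hx ht0 ht).2.2.2.1
  have hp8 : |p.2| ≤ κ := hwin (3 / 2) _ (by norm_num) hp
  have iG : Integrable (Gp D.U ch A.z R q) := VAM_intg _ (cG q) _ _ (sG q)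
  refine ⟨?_, ?_⟩
  swap
  · have h1 := VAM_bd (psi D ch A.z (1 / K) R (A.tu R) p) (Gp D.U ch A.z R q) _ iG (hpsib p hp8 (A.tu R) (htm A.m le_rfl).1 (htm A.m le_rfl).2)
    refine h1.trans ?_
    have h2 := nG q hq
    have h3 : R ^ (3 / 2 : ℝ) * R ^ (1 / 2 : ℝ) = R ^ 2 := by
      rw [← Real.rpow_add hR0, ← Real.rpow_natCast]
      norm_num
    have h4 : 0 ≤ R ^ (3 / 2 : ℝ) * ‖D.a p.2 (A.tu R) p.1‖ := by positivity
    calc R ^ (3 / 2 : ℝ) * ‖D.a p.2 (A.tu R) p.1‖ * ∫ z : ℍ, ‖Gp D.U ch A.z R q z‖ ≤ R ^ (3 / 2 : ℝ) * ‖D.a p.2 (A.tu R) p.1‖ * (8 * R ^ (1 / 2 : ℝ)) := mul_le_mul_of_nonneg_left h2 h4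
      _ = 8 * (R ^ (3 / 2 : ℝ) * R ^ (1 / 2 : ℝ)) * ‖D.a p.2 (A.tu R) p.1‖ := by ring
      _ = 8 * R ^ 2 * ‖D.a p.2 (A.tu R) p.1‖ := by rw [h3]
  · obtain ⟨kus, kusm, -, -, -, -, -⟩ := hUM R ⊥ univ D (by linarith) oxD hDb
    obtain ⟨su, -, -, -⟩ := hUS R ⊥ D (by linarith) hDb
    have hr0 : 0 ≤ A.r R := Real.rpow_nonneg hR0.le _
    have hcore := VAM_core D ch A R (R ^ (c2 * A.z2)) (R ^ (15 / 8 : ℝ))
      (fun k x y => ∫ z : ℍ, conj (psi D ch A.z (1 / K) R ((k : ℝ) * A.sg R) x z) * Gp D.U ch A.z R y z)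
      (Real.one_le_rpow (by linarith) (by positivity)) (Real.rpow_nonneg hR0.le _) hr0 (by nlinarith) kus.meas
      (fun k => ⟨(kusm k).meas, (kusm k).bdd⟩) su ?_ ?_ ?_ A.m le_rfl p q ?_ hq
    · refine hcore.trans ?_
      have hpm : (R ^ (c2 * A.z2)) ^ A.m = R ^ (c2 * A.z2 * A.m) := by
        rw [← Real.rpow_natCast, ← Real.rpow_mul hR0.le]
      rw [hpm]
      have hexp : c2 * A.z2 * A.m ≤ 1 / 100 := by
        have h1 := hA.up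
        have h2 : 0 < (A.m : ℝ) * A.z2 := mul_pos (by linarith) hz2
        have h3 : c2 ≤ K ^ 2 := by linarith
        nlinarith
      have h4 : R ^ (c2 * A.z2 * A.m) ≤ R ^ (1 / 100 : ℝ) := VAM_pw R _ _ hRb hexp
      have h5 : R ^ (3 / 200 : ℝ) * R ^ (1 / 100 : ℝ) * R ^ (15 / 8 : ℝ) = R ^ (19 / 10 : ℝ) := by
        rw [← Real.rpow_add hR0, ← Real.rpow_add hR0]
        norm_num
      rw [← h5]
      refine mul_le_mul_of_nonneg_right ?_ (Real.rpow_nonneg hR0.le _)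
      exact mul_le_mul hn1 h4 (Real.rpow_nonneg hR0.le _) (Real.rpow_nonneg hR0.le _)
    · intro k y hk hy
      obtain ⟨ht0, ht⟩ := htm k hk
      have hfa := (hFM R ((k : ℝ) * A.sg R) ⊥ D (by linarith) hDb (by rw [abs_of_nonneg ht0]; exact ht)).1
      have h7 : c7 * (1 / K) ≤ 1 / 8 := cK c7 (by linarith)
      have hfr := hFR ⊥ univ B D 0 (c7 * (1 / K)) (R ^ (3 / 2 + c7 * (1 / K))) R ((k : ℝ) * A.sg R) _ oxD hDb (by positivity) (by linarith)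
        (Real.rpow_nonneg hR0.le _) (hpow _ (by linarith)) hRκ (by linarith) hfa
      have hFH : FH ⊥ univ (Gp D.U ch A.z R y) := by
        refine oxH _ (cG y) ⟨2 * R ^ (-(1 / 2) + A.z) + dist (y.1 • I : ℍ) I, fun z hz => ?_⟩
        have h1 := sG y z hz
        have h2 := dist_triangle z (y.1 • I : ℍ) I
        have h3 := dist_comm z (y.1 • I : ℍ)
        linarith
      have hFP := hfr.2.2.2.2.1 _ hFH
      refine ⟨_, hFP.meas, hFP.bdd, ?_⟩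
      intro x hx
      show (GW 2 R).indicator (fun p => ∫ z : ℍ, Gp D.U ch A.z R y z * conj (pF D ((k : ℝ) * A.sg R) (pv D ch A.z (1 / K) R ((k : ℝ) * A.sg R)) p z)) x = _
      rw [indicator_of_mem hx]
      refine integral_congr_ae (Eventually.of_forall fun z => ?_)
      show Gp D.U ch A.z R y z * conj (pF D ((k : ℝ) * A.sg R) (pv D ch A.z (1 / K) R ((k : ℝ) * A.sg R)) x z) = conj (psi D ch A.z (1 / K) R ((k : ℝ) * A.sg R) x z) * Gp D.U ch A.z R y z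
      rw [mul_comm]
      rfl
    · intro k x y hk hx hy
      obtain ⟨ht0, ht⟩ := htm k (by omega)
      obtain ⟨ht1, ht2⟩ := htm (k + 1) hk
      have e1 : (((k + 1 : ℕ) : ℝ)) * A.sg R = A.sg R + (k : ℝ) * A.sg R := by push_cast; ring
      rw [e1] at ht2
      have := hAD R ((k : ℝ) * A.sg R) ⊥ D x y (by linarith) hDb hx hy ht0 ht2
      show ‖(∫ w, us D ch A R x w * (∫ z : ℍ, conj (psi D ch A.z (1 / K) R ((k : ℝ) * A.sg R) w z) * Gp D.U ch A.z R y z) ∂mP) -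
        ∫ z : ℍ, conj (psi D ch A.z (1 / K) R (((k + 1 : ℕ) : ℝ) * A.sg R) x z) * Gp D.U ch A.z R y z‖ ≤ _
      rw [e1]
      exact this
    · intro x y hx hy
      have hx8 : |x.2| ≤ κ := hwin 2 _ le_rfl hx.2
      show ‖pr D ch A R x y - ∫ z : ℍ, conj (psi D ch A.z (1 / K) R (((0 : ℕ) : ℝ) * A.sg R) x z) * Gp D.U ch A.z R y z‖ ≤ _
      rw [Nat.cast_zero, zero_mul]
      refine VAM_base D ch A R (1 / K) _ x y hRb rfl hDb.fl0 hx hy cG _ _ (sG y) ?_ (nG y hy) ?_ ?_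
      · exact (oxPsi D ch A.z (1 / K) R 0 κ ⊥ B x hch hK1 hK18 (by linarith) hDb hx8 (hpow _ (by linarith))).1.cont
      · intro hnb
        have hul := (hUL R 0 ⊥ D x y (by linarith) hDb le_rfl (by rw [zero_mul]) hx hy).2.2.2.2
        have h1 : ¬Nb (R ^ (-(1 / 2) + c4 * A.z1)) x y := by
          intro h
          apply hnb
          refine VAM_nb _ _ ?_ x y h
          refine VAM_pw R _ _ hRb ?_
          have : c4 * A.z1 ≤ K * A.z1 := mul_le_mul_of_nonneg_right (by linarith) hz10.le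
          linarith
        have h2 := hul h1
        rw [neg_zero, Real.rpow_zero] at h2
        exact h2
      · intro v
        obtain ⟨P, -, -, hP, hPe⟩ := (hD0 R ⊥ B D x 0 (by linarith) hDb hx8 (by rw [abs_zero]; exact mul_nonneg he0 hlog)).1
        have h1 : pv D ch A.z (1 / K) R 0 x v - fG D ch A.z R x v = Complex.exp (((R * rho D.U x.2 x.1 * v.re : ℝ) : ℂ) * Complex.I) * P v := hPe v
        have h2 := hP 0 le_rfl v
        rw [norm_iteratedFDeriv_zero, neg_zero, Real.rpow_zero, pow_zero, one_mul] at h2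
        have h3 : ‖Complex.exp (((R * rho D.U x.2 x.1 * v.re : ℝ) : ℂ) * Complex.I)‖ = 1 := Complex.norm_exp_ofReal_mul_I _
        rw [h1, norm_mul, h3, one_mul]
        exact h2
    · have h1 : |p.2| ≤ 3 / 2 * R ^ (-(1 / 4) : ℝ) := abs_le.mpr hp
      have h2 : (A.m : ℝ) * A.r R ≤ 7 / 16 * R ^ (-(1 / 4) : ℝ) := by
        have e1 : A.r R = R ^ (-(1 / 4) + A.z2) * R ^ (-(1 / 4) : ℝ) := by
          unfold Prm.r
          rw [← Real.rpow_add hR0]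
          congr 1
          ring
        have e2 : R ^ (1 / 8 : ℝ) * R ^ (-(1 / 4) + A.z2) ≤ 1 := by
          rw [← Real.rpow_add hR0]
          exact Real.rpow_le_one_of_one_le_of_nonpos (by linarith) (by linarith)
        have e3 : 0 < R ^ (-(1 / 4) + A.z2) := Real.rpow_pos_of_pos hR0 _
        have e4 : (A.m : ℝ) * R ^ (-(1 / 4) + A.z2) ≤ 7 / 16 := by nlinarith
        rw [e1, ← mul_assoc]
        exact mul_le_mul_of_nonneg_right e4 hq140.le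
      linarith

end

end Pool.Agent.VN
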